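import Pool.Agent.helper73.AD.Basic

/-!
IE: the limit directions of a family are isotropic and linearly independent.
-/

namespace Pool.Agent.helper73.AD

open scoped BigOperators Topology

theorem IE_zero_of_le (a B : ℝ) (h : ∀ s : ℝ, 0 ≤ s → |a| ≤ B * Real.exp (-s)) : a = 0 := by
  have h1 : Filter.Tendsto (fun s : ℝ => B * Real.exp (-s)) Filter.atTop (𝓝 (B * 0)) :=
    (Real.tendsto_exp_neg_atTop_nhds_zero).const_mul B
  have h2 : |a| ≤ B * 0 := by
    refine ge_of_tendsto h1 ?_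
    filter_upwards [Filter.eventually_ge_atTop (0 : ℝ)] with s hs
    exact h s hs
  rw [mul_zero] at h2
  exact abs_nonpos_iff.mp h2

theorem IE_iso (hIS : IS_stmt) {J K : Type} [Fintype J] [DecidableEq J] [Fintype K]
    [DecidableEq K] (S : Sys J K) (Φ : SFam S) (k m : K) : om (S.e k) (S.e m) = 0 := by
  set D : ℝ := 2 * Fintype.card J with hD
  have hD0 : 0 ≤ D := by positivity
  refine IE_zero_of_le _ (D * Φ.C * ‖S.e m‖ + D * (‖S.e k‖ + Φ.C) * Φ.C) ?_
  intro s hs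
  set T : K → ℝ := fun _ => s with hT
  have hC := Φ.C_pos
  have h0 := hIS J K S Φ T k m
  have hk := Φ.ep T k
  have hm := Φ.ep T m
  simp only [hT] at hk hm
  have hexp1 : Real.exp (-s) ≤ 1 := by
    rw [Real.exp_le_one_iff]; linarith
  have hexp0 : 0 < Real.exp (-s) := Real.exp_pos _
  have hXk : ‖S.X k (Φ.Z T)‖ ≤ ‖S.e k‖ + Φ.C := by
    have h1 : ‖S.X k (Φ.Z T)‖ ≤ ‖S.X k (Φ.Z T) - S.e k‖ + ‖S.e k‖ := by
      have := norm_add_le (S.X k (Φ.Z T) - S.e k) (S.e k)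
      simpa using this
    have h2 : Φ.C * Real.exp (-s) ≤ Φ.C := by nlinarith
    have h3 : ‖S.X k (Φ.Z T) - S.e k‖ ≤ Φ.C * Real.exp (-s) := hk
    linarith
  have hsplit : om (S.e k) (S.e m)
      = -(om (S.X k (Φ.Z T) - S.e k) (S.e m)) - om (S.X k (Φ.Z T)) (S.X m (Φ.Z T) - S.e m) := by
    rw [om_sub_left, om_sub_right, h0]; ring
  rw [hsplit]
  have ha := abs_om_le (S.X k (Φ.Z T) - S.e k) (S.e m)
  have hb := abs_om_le (S.X k (Φ.Z T)) (S.X m (Φ.Z T) - S.e m)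
  rw [← hD] at ha hb
  have ha' : D * ‖S.X k (Φ.Z T) - S.e k‖ * ‖S.e m‖ ≤ D * (Φ.C * Real.exp (-s)) * ‖S.e m‖ := by
    gcongr
  have hb' : D * ‖S.X k (Φ.Z T)‖ * ‖S.X m (Φ.Z T) - S.e m‖
      ≤ D * (‖S.e k‖ + Φ.C) * (Φ.C * Real.exp (-s)) := by
    gcongr
  calc |-(om (S.X k (Φ.Z T) - S.e k) (S.e m)) - om (S.X k (Φ.Z T)) (S.X m (Φ.Z T) - S.e m)|
      ≤ |-(om (S.X k (Φ.Z T) - S.e k) (S.e m))|
        + |om (S.X k (Φ.Z T)) (S.X m (Φ.Z T) - S.e m)| := abs_sub _ _
    _ = |om (S.X k (Φ.Z T) - S.e k) (S.e m)|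
        + |om (S.X k (Φ.Z T)) (S.X m (Φ.Z T) - S.e m)| := by rw [abs_neg]
    _ ≤ D * (Φ.C * Real.exp (-s)) * ‖S.e m‖ + D * (‖S.e k‖ + Φ.C) * (Φ.C * Real.exp (-s)) :=
        add_le_add (ha.trans ha') (hb.trans hb')
    _ = (D * Φ.C * ‖S.e m‖ + D * (‖S.e k‖ + Φ.C) * Φ.C) * Real.exp (-s) := by ring

theorem IE_lev_pos {J K : Type} [Fintype J] [DecidableEq J] [Fintype K]
    [DecidableEq K] (S : Sys J K) (Φ : SFam S) (k : K) : 0 < Φ.lev k :=
  lt_of_le_of_lt (abs_nonneg _) (Φ.box 0 k)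

theorem IE_indep {J K : Type} [Fintype J] [DecidableEq J] [Fintype K]
    [DecidableEq K] (S : Sys J K) (Φ : SFam S) : LinearIndependent ℝ S.e := by
  rw [Fintype.linearIndependent_iff]
  intro c hc
  have hsum : ∑ k, |c k| * Φ.lev k = 0 := by
    refine IE_zero_of_le _ (∑ k, |c k| * Φ.C) ?_
    intro s hs
    have hnn : 0 ≤ ∑ k, |c k| * Φ.lev k :=
      Finset.sum_nonneg fun k _ => mul_nonneg (abs_nonneg _) (IE_lev_pos S Φ k).le
    rw [abs_of_nonneg hnn, Finset.sum_mul]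
    set T : K → ℝ := fun k => if 0 ≤ c k then s else -s with hT
    have hz : ∑ k, c k * om (S.e k) (Φ.Z T) = 0 := by
      have h1 : om (∑ k, c k • S.e k) (Φ.Z T) = 0 := by rw [hc, om_zero_left]
      rw [om_sum_left] at h1
      rw [← h1]
      exact Finset.sum_congr rfl fun k _ => by rw [om_smul_left]
    have hle : ∀ k ∈ (Finset.univ : Finset K),
        |c k| * Φ.lev k - |c k| * Φ.C * Real.exp (-s) ≤ c k * om (S.e k) (Φ.Z T) := by
      intro k _
      by_cases h : 0 ≤ c k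
      · have h1 := Φ.boxp T k
        have h2 : T k = s := by simp [hT, h]
        rw [h2] at h1
        rw [abs_of_nonneg h]
        nlinarith
      · push Not at h
        have h1 := Φ.boxm T k
        have h2 : T k = -s := by simp [hT, not_le.mpr h]
        rw [h2] at h1
        rw [abs_of_neg h]
        nlinarith
    have h3 := Finset.sum_le_sum hle
    rw [hz, Finset.sum_sub_distrib] at h3
    linarith
  intro k
  have h4 := (Finset.sum_eq_zero_iff_of_nonneg (fun k _ =>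
    mul_nonneg (abs_nonneg (c k)) (IE_lev_pos S Φ k).le)).mp hsum k (Finset.mem_univ k)
  rcases mul_eq_zero.mp h4 with h | h
  · exact abs_eq_zero.mp h
  · exact absurd h (IE_lev_pos S Φ k).ne'

/-- IE: the limit directions are isotropic and independent -/
theorem IE_of (hIS : IS_stmt) : IE_stmt := by
  intro J K _ _ _ _ S Φ
  exact ⟨fun k m => IE_iso hIS S Φ k m, IE_indep S Φ⟩

end Pool.Agent.helper73.AD
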